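import Pool.Agent.Helper52_KP.Block

set_option autoImplicit false
set_option linter.unusedSectionVars false

namespace Pool.Agent.Helper52_KP

open Pool.Agent.Helper454.Kauf LaurentPolynomial Piece Matrix

noncomputable section

/-! ### formulas in a commutative ring -/

section
variable {R : Type} [CommRing R]

/-- the matrix of a positive crossing -/
def TT (z : R) : Matrix (Fin 2) (Fin 2) R := !![0, -1; 1, z]
/-- the matrix of a negative crossing -/
def TI (z : R) : Matrix (Fin 2) (Fin 2) R := !![z, 1; -1, 0]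

/-- the Chebyshev polynomials: `U 0 = 0`, `U 1 = 1`, `U (n+2) = z U (n+1) - U n` -/
def U (z : R) : ℕ → R
  | 0 => 0
  | 1 => 1
  | n + 2 => z * U z (n + 1) - U z n

/-- the shifted sequence -/
def V (z : R) : ℕ → R
  | 0 => -1
  | n + 1 => U z n

theorem U_succ (z : R) (n : ℕ) : U z (n + 1) = z * U z n - V z n := by
  cases n with
  | zero => simp [U, V]
  | succ n => rfl

theorem UV (z : R) (n : ℕ) : U z n ^ 2 - z * U z n * V z n + V z n ^ 2 = 1 := by
  induction n with
  | zero => simp [U, V]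
  | succ n ih => rw [U_succ, V]; linear_combination ih

theorem TT_pow (z : R) (n : ℕ) :
    TT z ^ n = !![-V z n, -U z n; U z n, z * U z n - V z n] := by
  induction n with
  | zero =>
    rw [pow_zero]
    ext i j
    fin_cases i <;> fin_cases j <;> simp [U, V]
  | succ n ih =>
    rw [pow_succ, ih, U_succ, V]
    ext i j
    fin_cases i <;> fin_cases j <;> simp [TT, Matrix.mul_apply, Fin.sum_univ_two] <;> ring

theorem TI_pow (z : R) (n : ℕ) :
    TI z ^ n = !![z * U z n - V z n, U z n; -U z n, -V z n] := by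
  induction n with
  | zero =>
    rw [pow_zero]
    ext i j
    fin_cases i <;> fin_cases j <;> simp [U, V]
  | succ n ih =>
    rw [pow_succ, ih, U_succ, V]
    ext i j
    fin_cases i <;> fin_cases j <;> simp [TI, Matrix.mul_apply, Fin.sum_univ_two] <;> ring

/-- self-adjoint matrices -/
def SA (z g0 g1 : R) (x : R × R × R) : Matrix (Fin 2) (Fin 2) R :=
  !![x.1, -x.2.1 + x.2.2 * g1; x.2.1, x.1 + z * x.2.1 - x.2.2 * g0]

/-- the trace of `T A` -/
def trT (z g0 g1 : R) (x : R × R × R) : R :=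
  z * x.1 + (z ^ 2 - 2) * x.2.1 + x.2.2 * (g1 - z * g0)

/-- the trace of `A` -/
def trA (z g0 : R) (x : R × R × R) : R := 2 * x.1 + z * x.2.1 - x.2.2 * g0

/-- the determinant of `A` -/
def dtA (z g0 g1 : R) (x : R × R × R) : R :=
  x.1 ^ 2 + z * x.1 * x.2.1 + x.2.1 ^ 2 - x.2.2 * (x.1 * g0 + x.2.1 * g1)

/-- the coordinates of `A T A` -/
def s1 (z g0 g1 : R) (x : R × R × R) : R × R × R :=
  (trT z g0 g1 x * x.1 - z * dtA z g0 g1 x, trT z g0 g1 x * x.2.1 + dtA z g0 g1 x,
    trT z g0 g1 x * x.2.2)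

/-- the coordinates of `A A` -/
def s2 (z g0 g1 : R) (x : R × R × R) : R × R × R :=
  (trA z g0 x * x.1 - dtA z g0 g1 x, trA z g0 x * x.2.1, trA z g0 x * x.2.2)

theorem SA_s1 (z g0 g1 : R) (x : R × R × R) :
    SA z g0 g1 x * TT z * SA z g0 g1 x = SA z g0 g1 (s1 z g0 g1 x) := by
  ext i j
  fin_cases i <;> fin_cases j <;>
    simp [TT, SA, s1, trT, dtA, Matrix.mul_apply, Fin.sum_univ_two] <;> ring

theorem SA_s2 (z g0 g1 : R) (x : R × R × R) :
    SA z g0 g1 x * SA z g0 g1 x = SA z g0 g1 (s2 z g0 g1 x) := by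
  ext i j
  fin_cases i <;> fin_cases j <;>
    simp [SA, s2, trA, dtA, Matrix.mul_apply, Fin.sum_univ_two] <;> ring

/-- the coordinates of the iterated tangles -/
def seqA (z g0 g1 : R) (x : R × R × R) : ℕ → R × R × R
  | 0 => x
  | n + 1 => s2 z g0 g1 (s1 z g0 g1 (seqA z g0 g1 x n))

/-- the functional on matrices -/
def Phi (c0 c1 b : R) (A : Matrix (Fin 2) (Fin 2) R) : R :=
  c0 * (A 0 0 * b + A 0 1) + c1 * (A 1 0 * b + A 1 1)

/-- the twisted value -/
theorem Phi_conj (z g0 g1 c0 c1 b : R) (x : R × R × R) (n : ℕ)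
    (h : c0 * (g1 * b + z * g1 - g0) + c1 * (-g0 * b - g1) = 0) :
    Phi c0 c1 b (TI z ^ n * (SA z g0 g1 x * TT z ^ n)) = Phi c0 c1 b (SA z g0 g1 x) +
      x.2.2 * U z n ^ 2 * (c0 * ((z * g1 - g0) * b + (z ^ 2 - 1) * g1 - z * g0) +
        c1 * (-g1 * b + g0 - z * g1)) := by
  rw [TT_pow, TI_pow]
  have e := UV z n
  obtain ⟨p, r, l⟩ := x
  simp [TT, TI, SA, Phi, Matrix.mul_apply, Fin.sum_univ_two]
  generalize U z n = u at *
  generalize V z n = v at *
  linear_combination (c0 * (p * b + (-r + l * g1)) + c1 * (r * b + (p + z * r - l * g0))) * e -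
    l * u * v * h

end

end

end Pool.Agent.Helper52_KP
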