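import Pool.Agent.Helper52_KP.States

set_option autoImplicit false
set_option linter.unusedSectionVars false

namespace Pool.Agent.Helper52_KP

open Pool.Agent.Helper454.Kauf LaurentPolynomial Piece

/-- the vector of the state `be0` -/
def vB0 : Vec 2 := ([([[(-1, [-1]), (0, [0, 1])]] : List Poly), ([[(0, [-1])]] : List Poly),
  ([[(0, [0, 1])]] : List Poly)] : List (List Poly))
/-- the vector of the state `be1` -/
def vB1 : Vec 2 := ([([[(-1, [0, -1]), (0, [-1, 0, 1])]] : List Poly),
  ([[(-1, [1]), (0, [0, -1])]] : List Poly), ([[(0, [0, 0, 1])]] : List Poly)] : List (List Poly))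
/-- the vector of the state `ep` -/
def vE : Vec 2 := ([([[]] : List Poly), ([[]] : List Poly), ([[(0, [1])]] : List Poly)] :
  List (List Poly))
/-- the vector of the starting state -/
def vI : Vec 2 := ([([[(0, [1])]] : List Poly)] : List (List Poly))

/-- `v = p w₀ + q w₁` up to the common factor `r` -/
def chk (v w0 w1 : Vec 2) (r p q : Poly) : Bool :=
  eqP (getP v 0) (pmul r (Poly.add (pmul p (getP w0 0)) (pmul q (getP w1 0)))) &&
  (eqP (getP v 1) (pmul r (Poly.add (pmul p (getP w0 1)) (pmul q (getP w1 1)))) &&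
  eqP (getP v 2) (pmul r (Poly.add (pmul p (getP w0 2)) (pmul q (getP w1 2)))))

/-- `1` -/
def p1 : Poly := [(0, [1])]

theorem T1 : chk (opZ 2 true 1 vB0) vB0 vB1 p1 [] p1 = true := by decide +kernel
theorem T2 : chk (opZ 2 true 1 vB1) vB0 vB1 p1 [(0, [-1])] [(0, [0, 1])] = true := by
  decide +kernel
theorem T3 : chk (opZ 2 true 1 vE) vE vE p1 [(-1, [1])] [] = true := by decide +kernel
theorem T4 : chk (opZ 2 false 1 vB0) vB0 vB1 p1 [(0, [0, 1])] [(0, [-1])] = true := by
  decide +kernel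
theorem T5 : chk (opZ 2 false 1 vB1) vB0 vB1 p1 p1 [] = true := by decide +kernel
theorem T6 : chk (opZ 2 false 1 vE) vE vE p1 [(1, [1])] [] = true := by decide +kernel
theorem T7 : chk (OmV vB0) vB0 vB1 [(0, [0, 0, 0, 1])] pX0 pY0 = true := by decide +kernel
theorem T8 : chk (OmV vB1) vB0 vB1 [(0, [0, 0, 0, 1])] pX1 pY1 = true := by decide +kernel
theorem T9 : chk (OmV vE) vE vE [(0, [0, 0, 0, 1])] p1 [] = true := by decide +kernel

noncomputable section

/-- `a⁻¹` -/
def al : Raz := aPow (-1)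

/-- the entries of the matrix of `Om` -/
def X0 : Raz := evalP pX0
/-- the entries of the matrix of `Om` -/
def Y0 : Raz := evalP pY0
/-- the entries of the matrix of `Om` -/
def X1 : Raz := evalP pX1
/-- the entries of the matrix of `Om` -/
def Y1 : Raz := evalP pY1

theorem evalZ_one : evalZ [1] = 1 := by simp [evalZ]

theorem evalP_p1 : evalP p1 = 1 := by simp [p1, evalP, evalZ]
theorem evalP_z : evalP [(0, [0, 1])] = zVar := by simp [evalP, evalZ, zVar]
theorem evalP_m1 : evalP [(0, [-1])] = -1 := by simp [evalP, evalZ]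
theorem evalP_al : evalP [(-1, [1])] = al := by simp [evalP, evalZ, al, aPow]
theorem evalP_a : evalP [(1, [1])] = aPow 1 := by simp [evalP, evalZ, aPow]
theorem evalP_z3 : evalP [(0, [0, 0, 0, 1])] = zVar * zVar * zVar := by
  simp only [evalP, evalZ, zVar, map_zero, zero_add, mul_zero, add_zero, map_one, mul_one,
    map_mul, T_zero, mul_assoc]

section
variable {M : Type} [AddCommGroup M] [Module Raz M] {Λ : Word → M} (hΛ : KauffmanRules Λ)

/-- the basic states -/
def be0 (Λ : Word → M) : Word → M := sem Λ 2 vB0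
/-- the basic states -/
def be1 (Λ : Word → M) : Word → M := sem Λ 2 vB1
/-- the basic states -/
def ep (Λ : Word → M) : Word → M := sem Λ 2 vE

include hΛ

theorem chk_sound {v w0 w1 : Vec 2} {r p q : Poly} (h : chk v w0 w1 r p q = true) :
    sem Λ 2 v = evalP r • (evalP p • sem Λ 2 w0 + evalP q • sem Λ 2 w1) := by
  rw [chk, Bool.and_eq_true, Bool.and_eq_true] at h
  obtain ⟨h0, h1, h2⟩ := h
  have e0 := eqP_sound h0
  have e1 := eqP_sound h1
  have e2 := eqP_sound h2
  rw [evalP_mul, evalP_add, evalP_mul, evalP_mul] at e0 e1 e2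
  rw [sem_two hΛ v, sem_two hΛ w0, sem_two hΛ w1, e0, e1, e2]
  module

theorem z3_cancel {f g : Word → M} (h : zVar • zVar • zVar • f = (zVar * zVar * zVar) • g) :
    f = g := by
  have e : ∀ f : Word → M, C (T (-3)) • zVar • zVar • zVar • f = f := fun f => by
    rw [smul_smul, smul_smul, smul_smul, zpow3, one_smul]
  rw [← e f, h, mul_smul, mul_smul, e g]

theorem t1 : st (be0 Λ) (pos 1) = be1 Λ := by
  have := chk_sound hΛ T1
  rw [sem_opZ hΛ 2 true 1 _ (by omega), cr_true, evalP_p1] at this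
  rw [be0, be1]
  simpa [evalP] using this

theorem t2 : st (be1 Λ) (pos 1) = zVar • be1 Λ - be0 Λ := by
  have := chk_sound hΛ T2
  rw [sem_opZ hΛ 2 true 1 _ (by omega), cr_true, evalP_p1, evalP_m1, evalP_z, one_smul] at this
  rw [be1, be0]
  refine this.trans ?_
  module

theorem t3 : st (ep Λ) (pos 1) = al • ep Λ := by
  have := chk_sound hΛ T3
  rw [sem_opZ hΛ 2 true 1 _ (by omega), cr_true, evalP_p1, evalP_al, one_smul] at this
  rw [ep]
  simpa [evalP] using this

theorem t4 : st (be0 Λ) (neg 1) = zVar • be0 Λ - be1 Λ := by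
  have := chk_sound hΛ T4
  rw [sem_opZ hΛ 2 false 1 _ (by omega), cr_false, evalP_p1, evalP_m1, evalP_z, one_smul] at this
  rw [be1, be0]
  refine this.trans ?_
  module

theorem t5 : st (be1 Λ) (neg 1) = be0 Λ := by
  have := chk_sound hΛ T5
  rw [sem_opZ hΛ 2 false 1 _ (by omega), cr_false, evalP_p1] at this
  rw [be0, be1]
  simpa [evalP] using this

theorem t6 : st (ep Λ) (neg 1) = aPow 1 • ep Λ := by
  have := chk_sound hΛ T6
  rw [sem_opZ hΛ 2 false 1 _ (by omega), cr_false, evalP_p1, evalP_a, one_smul] at this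
  rw [ep]
  simpa [evalP] using this

theorem t7 : ap (be0 Λ) Om = X0 • be0 Λ + Y0 • be1 Λ := by
  have := chk_sound hΛ T7
  rw [sem_OmV hΛ, evalP_z3] at this
  exact z3_cancel hΛ this

theorem t8 : ap (be1 Λ) Om = X1 • be0 Λ + Y1 • be1 Λ := by
  have := chk_sound hΛ T8
  rw [sem_OmV hΛ, evalP_z3] at this
  exact z3_cancel hΛ this

theorem t9 : ap (ep Λ) Om = ep Λ := by
  have := chk_sound hΛ T9
  rw [sem_OmV hΛ, evalP_z3, evalP_p1] at this
  have h2 := z3_cancel hΛ this
  rw [ep]
  simpa [evalP] using h2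

/-- the starting state -/
theorem t10 : (al ^ 2 - zVar * al + 1) • st (st (extd Λ) (birth 0)) (birth 0) =
    (zVar * al) • ep Λ - (be1 Λ + (al - zVar) • be0 Λ) := by
  have h1 : st (st (extd Λ) (birth 0)) (birth 0) = sem Λ 2 vI := by
    rw [sem_two hΛ]
    have e0 : getP vI 0 = p1 := rfl
    have e1 : getP vI 1 = [] := rfl
    have e2 : getP vI 2 = [] := rfl
    rw [e0, e1, e2, evalP_p1, evalP, zero_smul, zero_smul, add_zero, add_zero, one_smul]
    rfl
  rw [h1, sem_two hΛ vI, ep, be0, be1, sem_two hΛ vE, sem_two hΛ vB0, sem_two hΛ vB1]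
  have g : ∀ (p : Poly) (q : Poly), p = q → evalP p = evalP q := fun p q h => by rw [h]
  have i0 : evalP (getP vI 0) = 1 := evalP_p1
  have i1 : evalP (getP vI 1) = 0 := rfl
  have i2 : evalP (getP vI 2) = 0 := rfl
  have j0 : evalP (getP vE 0) = 0 := rfl
  have j1 : evalP (getP vE 1) = 0 := rfl
  have j2 : evalP (getP vE 2) = 1 := evalP_p1
  have k0 : evalP (getP vB0 0) = zVar - al := by
    show evalP [(-1, [-1]), (0, [0, 1])] = _
    simp [evalP, evalZ, zVar, al, aPow]
    ring
  have k1 : evalP (getP vB0 1) = -1 := evalP_m1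
  have k2 : evalP (getP vB0 2) = zVar := evalP_z
  have l0 : evalP (getP vB1 0) = zVar ^ 2 - zVar * al - 1 := by
    show evalP [(-1, [0, -1]), (0, [-1, 0, 1])] = _
    simp [evalP, evalZ, zVar, al, aPow]
    ring
  have l1 : evalP (getP vB1 1) = al - zVar := by
    show evalP [(-1, [1]), (0, [0, -1])] = _
    simp [evalP, evalZ, zVar, al, aPow]
    ring
  have l2 : evalP (getP vB1 2) = zVar ^ 2 := by
    show evalP [(0, [0, 0, 1])] = _
    simp [evalP, evalZ, zVar]
    ring
  rw [i0, i1, i2, j0, j1, j2, k0, k1, k2, l0, l1, l2]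
  module

theorem close2 (v : Vec 2) : zVar • (sem Λ 2 v) [death 0, death 0] =
    evalP (get1 (opD 1 0 v)) • Λ circle := by
  have h1 := sem_opD hΛ 0 0 v (by omega)
  rw [sem_one' hΛ] at h1
  have h2 := congrFun h1 [death 0]
  have e1 : (evalP (get1 (opD (0 + 1) 0 v)) • st (extd Λ) (birth 0)) [death 0] =
      evalP (get1 (opD 1 0 v)) • Λ circle := by
    show evalP (get1 (opD 1 0 v)) • extd Λ circle = _
    rw [extd, if_pos (by decide)]
  rw [e1] at h2
  exact h2.symm

end

end

end Pool.Agent.Helper52_KP
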