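import Pool.Agent.Helper52_KP.Hom
import Pool.Agent.Helper454.Kauf.Exist10

set_option autoImplicit false
set_option linter.unusedSectionVars false

namespace Pool.Agent.Helper52_KP

open Pool.Agent.Helper454.Kauf LaurentPolynomial Piece Matrix

/-! ### the coefficient of the difference -/

section
variable {R : Type} [CommRing R]

theorem dvd_step (z g0 g1 : R) (x : R × R × R) (h : z ∣ trT z g0 g1 x) :
    z ∣ trA z g0 (s1 z g0 g1 x) ∧ z ∣ trT z g0 g1 (s2 z g0 g1 (s1 z g0 g1 x)) := by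
  obtain ⟨c, hc⟩ := h
  have h1 : z ∣ trA z g0 (s1 z g0 g1 x) := by
    refine ⟨2 * (c * x.1 - dtA z g0 g1 x) + (trT z g0 g1 x * x.2.1 + dtA z g0 g1 x) -
      c * x.2.2 * g0, ?_⟩
    rw [trA]
    show 2 * (trT z g0 g1 x * x.1 - z * dtA z g0 g1 x) + z * (trT z g0 g1 x * x.2.1 +
      dtA z g0 g1 x) - trT z g0 g1 x * x.2.2 * g0 = _
    rw [hc]
    ring
  refine ⟨h1, ?_⟩
  obtain ⟨c2, hc2⟩ := h1
  generalize s1 z g0 g1 x = y at *
  refine ⟨trA z g0 y * y.1 - dtA z g0 g1 y + (z ^ 2 - 2) * (c2 * y.2.1) +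
    c2 * y.2.2 * (g1 - z * g0), ?_⟩
  rw [trT]
  show z * (trA z g0 y * y.1 - dtA z g0 g1 y) + (z ^ 2 - 2) * (trA z g0 y * y.2.1) +
    trA z g0 y * y.2.2 * (g1 - z * g0) = _
  rw [hc2]
  ring

end

noncomputable section

theorem dvd_sq (i : ℕ) : zVar ∣ trT zVar g0 g1 (sq i) := by
  induction i with
  | zero => exact ⟨_, trT_x0⟩
  | succ i ih => exact (dvd_step _ _ _ _ ih).2

/-- the coefficient of the difference -/
def lF (i : ℕ) : Raz := (s1 zVar g0 g1 (sq i)).2.2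

theorem lF_dvd (i : ℕ) : zVar ^ (2 * i + 1) * Lm ∣ lF i := by
  induction i with
  | zero =>
    obtain ⟨c, hc⟩ := dvd_sq 0
    refine ⟨c, ?_⟩
    show trT zVar g0 g1 (sq 0) * Lm = _
    rw [hc]
    ring
  | succ i ih =>
    obtain ⟨c1, h1⟩ := ih
    obtain ⟨c2, h2⟩ := (dvd_step _ _ _ _ (dvd_sq i)).1
    obtain ⟨c3, h3⟩ := dvd_sq (i + 1)
    refine ⟨c1 * c2 * c3, ?_⟩
    show trT zVar g0 g1 (sq (i + 1)) * (trA zVar g0 (s1 zVar g0 g1 (sq i)) * lF i) = _
    rw [h1, h2, h3]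
    ring

/-! ### it is not zero -/

/-- the image of a triple modulo 13 -/
def mp (x : Raz × Raz × Raz) : ZMod 13 × ZMod 13 × ZMod 13 := (h13 x.1, h13 x.2.1, h13 x.2.2)

theorem mp_s1 (x : Raz × Raz × Raz) : mp (s1 zVar g0 g1 x) = s1 7 3 9 (mp x) := by
  simp only [mp, s1, trT, dtA, map_add, map_sub, map_mul, map_pow, h13_z, h13_g0, h13_g1,
    map_ofNat]

theorem mp_s2 (x : Raz × Raz × Raz) : mp (s2 zVar g0 g1 x) = s2 7 3 9 (mp x) := by
  simp only [mp, s2, trA, dtA, map_add, map_sub, map_mul, map_pow, h13_z, h13_g0, h13_g1,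
    map_ofNat]

theorem mp_zero : mp (sq 0) = (0, 7, 8) := by
  show (h13 X0, h13 Y0, h13 Lm) = _
  rw [h13_X0, h13_Y0, h13_Lm]

theorem mp_succ (i : ℕ) : mp (sq (i + 1)) = (0, 6, 5) := by
  induction i with
  | zero =>
    show mp (s2 zVar g0 g1 (s1 zVar g0 g1 (sq 0))) = _
    rw [mp_s2, mp_s1, mp_zero]
    decide +kernel
  | succ i ih =>
    show mp (s2 zVar g0 g1 (s1 zVar g0 g1 (sq (i + 1)))) = _
    rw [mp_s2, mp_s1, ih]
    decide +kernel

theorem h13_lF (i : ℕ) : h13 (lF i) ≠ 0 := by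
  intro h
  have h1 : (mp (s1 zVar g0 g1 (sq i))).2.2 = h13 (lF i) := rfl
  rw [h, mp_s1] at h1
  cases i with
  | zero =>
    rw [mp_zero] at h1
    revert h1
    decide +kernel
  | succ i =>
    rw [mp_succ] at h1
    revert h1
    decide +kernel

/-- the factor at the trivial channel -/
theorem N_ne : (al ^ 2 - zVar * al + 1 : Raz) ≠ 0 := by
  intro h
  have h1 := congrArg h13 h
  rw [map_add, map_sub, map_mul, map_pow, h13_al, h13_z, map_one, map_zero] at h1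
  revert h1
  decide +kernel

/-- the common factor -/
def Kc : Raz := (1 + al ^ 2) * (1 + al * (zVar ^ 3 - 3 * zVar) + al ^ 2)

theorem h13_Kc : h13 Kc ≠ 0 := by
  rw [Kc, map_mul, map_add, map_add, map_add, map_mul, map_sub, map_mul, map_pow, map_pow, h13_al,
    h13_z, map_one, map_ofNat]
  decide +kernel

theorem zVar_ne : zVar ≠ 0 := by
  intro h
  have h1 := congrArg h13 h
  rw [h13_z, map_zero] at h1
  revert h1
  decide

/-! ### the difference of the values -/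

theorem ker_id : c0 * (g1 * (al - zVar) + zVar * g1 - g0) + c1 * (-g0 * (al - zVar) - g1) = 0 := by
  have h := a_al
  rw [c0, c1, g0, g1]
  generalize aPow 1 = a at *
  generalize al = b at *
  generalize zVar = z at *
  linear_combination (z * (b * (2 * b - z ^ 2 * b - 2 * z + z ^ 3) - (b ^ 2 - z * b - 1 + z ^ 2)) +
    (z ^ 2 - 1) * (-b * (b ^ 2 - z * b - 1 + z ^ 2) + z * (b ^ 2 - z * b - 1 + z ^ 2) -
      (2 * b - z ^ 2 * b - 2 * z + z ^ 3))) * h

theorem kap_id : c0 * ((zVar * g1 - g0) * (al - zVar) + (zVar ^ 2 - 1) * g1 - zVar * g0) +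
    c1 * (-g1 * (al - zVar) + g0 - zVar * g1) = (al ^ 2 - zVar * al + 1) * Kc := by
  have h := a_al
  rw [c0, c1, g0, g1, Kc]
  generalize aPow 1 = a at *
  generalize al = b at *
  generalize zVar = z at *
  linear_combination (-z * b * (b ^ 2 - z * b - 1 + z ^ 2) -
    z * (2 * b - z ^ 2 * b - 2 * z + z ^ 3) + (z ^ 2 - 1) * (b ^ 2 - z * b - 1 + z ^ 2) +
    b * (2 * b - z ^ 2 * b - 2 * z + z ^ 3)) * h

theorem value_diff {Λ : Word → Raz} (hΛ : KauffmanRules Λ) (h1 : Λ circle = 1) (i n : ℕ) :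
    zVar * Λ (KW i n) = zVar * Λ (KW i 0) - lF i * U zVar n ^ 2 * Kc := by
  obtain ⟨e, he⟩ := Rep.Mid i
  have e1 := value_mid hΛ h1 (he n) (closed_KW i n)
  have e0 := value_mid hΛ h1 (he 0) (closed_KW i 0)
  rw [Matrix.mul_assoc, Phi_conj _ _ _ _ _ _ _ _ ker_id, kap_id] at e1 e0
  have u0 : U zVar 0 = 0 := rfl
  rw [u0] at e0
  apply mul_left_cancel₀ N_ne
  show (al ^ 2 - zVar * al + 1) * (zVar * Λ ([birth 0, birth 0] ++ (Mid i n ++
    [death 0, death 0]))) = (al ^ 2 - zVar * al + 1) * (zVar * Λ ([birth 0, birth 0] ++ (Mid i 0 ++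
    [death 0, death 0])) - lF i * U zVar n ^ 2 * Kc)
  rw [lF]
  linear_combination e1 - e0

/-! ### isotopic diagrams -/

theorem iso_value {Λ : Word → Raz} (hΛ : KauffmanRules Λ) {D E : Word} (h : Isotopic D E) :
    ∃ k : ℤ, Λ D = aPow k * Λ E := by
  have a0 : aPow 0 = 1 := by simp [aPow]
  induction h with
  | rel D E h =>
    obtain ⟨x, l, r, y, h1, c1, c2⟩ := h
    rcases h1 with h1 | h1
    · refine ⟨0, ?_⟩
      rw [a0, one_mul]
      exact hΛ.regular _ _ (Relation.EqvGen.rel _ _ (RegStep.mk x l r y h1 c1 c2))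
    · cases h1 with
      | birthPos i => exact ⟨-1, hΛ.birthPos x i y c2⟩
      | birthNeg i => exact ⟨1, hΛ.birthNeg x i y c2⟩
      | deathPos i => exact ⟨-1, hΛ.deathPos x i y c2⟩
      | deathNeg i => exact ⟨1, hΛ.deathNeg x i y c2⟩
  | refl D => exact ⟨0, by rw [a0, one_mul]⟩
  | symm D E _ ih =>
    obtain ⟨k, hk⟩ := ih
    exact ⟨-k, by rw [hk, ← mul_assoc, aPow_mul, neg_add_cancel, a0, one_mul]⟩
  | trans D E F _ _ ih1 ih2 =>
    obtain ⟨k, hk⟩ := ih1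
    obtain ⟨k', hk'⟩ := ih2
    exact ⟨k + k', by rw [hk, hk', ← mul_assoc, aPow_mul]⟩

theorem not_isotopic (i n m : ℕ) (hnm : n ≠ m) : ¬ Isotopic (KW i n) (KW i m) := by
  intro h
  have hΛ := Ex.Lam_rules
  have h1 := Ex.Lam_circle
  obtain ⟨k, hk⟩ := iso_value hΛ h
  have e1 := congrArg ha (value_diff hΛ h1 i n)
  have e2 := congrArg ha (value_diff hΛ h1 i m)
  have e3 := congrArg ha hk
  rw [map_mul, ha_a, one_mul] at e3
  rw [map_mul, e3, ← map_mul, e2, map_sub, map_sub, sub_right_inj, map_mul, map_mul, map_mul,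
    map_mul, map_pow, map_pow] at e1
  have n1 : ha (lF i) ≠ 0 := by
    intro h3
    apply h13_lF i
    rw [h13, RingHom.comp_apply, h3, map_zero]
  have n2 : ha Kc ≠ 0 := by
    intro h3
    apply h13_Kc
    rw [h13, RingHom.comp_apply, h3, map_zero]
  have e4 := mul_left_cancel₀ n1 (mul_right_cancel₀ n2 e1)
  have e5 := congrArg h2 e4
  rw [map_pow, map_pow, (h2_U m).1, (h2_U n).1] at e5
  have e6 : ((m : ℚ)) = n := by
    have p1 : (0 : ℚ) ≤ m := Nat.cast_nonneg m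
    have p2 : (0 : ℚ) ≤ n := Nat.cast_nonneg n
    nlinarith [sq_nonneg ((m : ℚ) - n), sq_nonneg ((m : ℚ) + n)]
  exact hnm (by exact_mod_cast e6.symm)

end

end Pool.Agent.Helper52_KP
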