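import Pool.Agent.Helper52_KP.Main

set_option autoImplicit false
set_option linter.unusedSectionVars false

namespace Pool.Agent.Helper52_KP

open Pool.Agent.Helper454.Kauf LaurentPolynomial Piece Matrix

noncomputable section

/-- evaluation at `a = 1` -/
def ha : Raz →+* LaurentPolynomial ℤ := eval₂ (RingHom.id _) 1

theorem ha_a (n : ℤ) : ha (aPow n) = 1 := by
  rw [ha, aPow, eval₂_T, _root_.one_zpow, Units.val_one]

theorem ha_C (x : LaurentPolynomial ℤ) : ha (C x) = x := by
  rw [ha, eval₂_C]; rfl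

theorem ha_z : ha zVar = T 1 := ha_C _

end

/-- value of a polynomial in `z` at `7` -/
def ez : ZP → ZMod 13
  | [] => 0
  | c :: p => (c : ZMod 13) + 7 * ez p

/-- value of a polynomial at `a = 1`, `z = 7` -/
def eP : Poly → ZMod 13
  | [] => 0
  | (_, x) :: p => ez x + eP p

/-- the unit `7` -/
def u7 : (ZMod 13)ˣ := ⟨7, 2, by decide, by decide⟩

noncomputable section

/-- evaluation at `z = 7` modulo 13 -/
def hz : LaurentPolynomial ℤ →+* ZMod 13 := eval₂ (Int.castRingHom _) u7

/-- evaluation at `a = 1`, `z = 7` modulo 13 -/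
def h13 : Raz →+* ZMod 13 := hz.comp ha

theorem hz_T : hz (T 1) = 7 := by
  rw [hz, eval₂_T, _root_.zpow_one]; rfl

theorem h13_z : h13 zVar = 7 := by
  rw [h13, RingHom.comp_apply, ha_z, hz_T]

theorem h13_a (n : ℤ) : h13 (aPow n) = 1 := by
  rw [h13, RingHom.comp_apply, ha_a, map_one]

theorem h13_al : h13 al = 1 := h13_a _

theorem hz_evalZ (p : ZP) : hz (evalZ p) = ez p := by
  induction p with
  | nil => rw [evalZ, map_zero]; rfl
  | cons c p ih =>
    rw [evalZ, map_add, map_mul, ih, hz_T, hz, eval₂_C]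
    rfl

theorem h13_evalP (p : Poly) : h13 (evalP p) = eP p := by
  induction p with
  | nil => rw [evalP, map_zero]; rfl
  | cons t p ih =>
    obtain ⟨i, x⟩ := t
    have e : (T i : Raz) = aPow i := rfl
    rw [evalP, map_add, map_mul, ih, e, h13_a, mul_one, h13, RingHom.comp_apply, ha_C, hz_evalZ]
    rfl

theorem h13_X0 : h13 X0 = 0 := by rw [X0, h13_evalP]; decide +kernel
theorem h13_Y0 : h13 Y0 = 7 := by rw [Y0, h13_evalP]; decide +kernel
theorem h13_Lm : h13 Lm = 8 := by rw [Lm, h13_evalP]; decide +kernel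
theorem h13_g0 : h13 g0 = 3 := by rw [← pG0_eq, h13_evalP]; decide +kernel
theorem h13_g1 : h13 g1 = 9 := by rw [← pG1_eq, h13_evalP]; decide +kernel

/-- evaluation at `z = 2` -/
def h2 : LaurentPolynomial ℤ →+* ℚ :=
  eval₂ (Int.castRingHom _) (Units.mk0 2 (by norm_num))

theorem h2_T : h2 (T 1) = 2 := by
  rw [h2, eval₂_T, _root_.zpow_one]; rfl

theorem h2_U (n : ℕ) : h2 (ha (U zVar n)) = n ∧ h2 (ha (V zVar n)) = n - 1 := by
  induction n with
  | zero => simp [U, V]
  | succ n ih =>
    obtain ⟨h3, h4⟩ := ih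
    rw [U_succ, V, map_sub, map_mul, map_sub, map_mul, h3, h4, ha_z, h2_T]
    push_cast
    constructor <;> ring

end

end Pool.Agent.Helper52_KP
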