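import Pool.Agent.Helper52_KP.Diff

set_option autoImplicit false
set_option linter.unusedSectionVars false

namespace Pool.Agent.Helper52_KP

open Pool.Agent.Helper454.Kauf LaurentPolynomial Piece Y478.KU

/-! ### the number of components -/

/-- the labels of the four strands -/
def lab : Bool → List ℕ
  | false => [1, 1, 0, 0]
  | true => [1, 0, 1, 0]

/-- the effect of a word on the labels -/
structure CP (w : Word) (b : Bool) : Prop where
  wd : ∀ v, Helper454.Kauf.width (w ++ v) 4 = Helper454.Kauf.width v 4
  cp : ∀ v c, (Helper454.Kauf.width v 4).isSome →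
    componentsAux (w ++ v) (lab c) 2 = componentsAux v (lab (xor b c)) 2

theorem CP.append {u v : Word} {b c : Bool} (hu : CP u b) (hv : CP v c) :
    CP (u ++ v) (xor c b) where
  wd w := by rw [List.append_assoc, hu.wd, hv.wd]
  cp w d hw := by
    rw [List.append_assoc, hu.cp _ _ (by rw [hv.wd]; exact hw), hv.cp _ _ hw, Bool.xor_assoc]

theorem CP.nil : CP [] false where
  wd _ := rfl
  cp v c _ := by rw [Bool.false_xor]; rfl

theorem CP.pos : CP [pos 1] true where
  wd _ := rfl
  cp v c _ := by cases c <;> rfl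

theorem CP.neg : CP [neg 1] true where
  wd _ := rfl
  cp v c _ := by cases c <;> rfl

/-- a renaming -/
def rn1 : ℕ → ℕ
  | 0 => 1
  | 1 => 3
  | n + 2 => n + 5

/-- a renaming -/
def rn2 : ℕ → ℕ
  | 0 => 3
  | 1 => 1
  | n + 2 => n + 5

theorem rn1_inj : Function.Injective rn1 := by
  intro a b h
  rcases a with _ | _ | a <;> rcases b with _ | _ | b <;> simp only [rn1] at h <;> omega

theorem rn2_inj : Function.Injective rn2 := by
  intro a b h
  rcases a with _ | _ | a <;> rcases b with _ | _ | b <;> simp only [rn2] at h <;> omega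

theorem CP.om : CP Om false where
  wd := width_Om
  cp v c hv := by
    rw [Bool.false_xor, componentsAux_append]
    cases c
    · have e : runC Om (lab false) 2 = (0, (lab false).map rn1, 5) := by decide +kernel
      rw [e, zero_add]
      exact componentsAux_rename rn1 rn1_inj v (lab false) 2 5
        (fun j => by rw [add_comm 2 j, rn1, add_comm]) hv
    · have e : runC Om (lab true) 2 = (0, (lab true).map rn2, 5) := by decide +kernel
      rw [e, zero_add]
      exact componentsAux_rename rn2 rn2_inj v (lab true) 2 5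
        (fun j => by rw [add_comm 2 j, rn2, add_comm]) hv

theorem CP.AW (i : ℕ) : CP (AW i) false := by
  induction i with
  | zero => exact CP.om
  | succ i ih =>
    have h := ih.append (CP.pos.append ih)
    exact h.append h

theorem CP.Th (i : ℕ) : CP (Th i) true := (CP.AW i).append (CP.pos.append (CP.AW i))

/-- the parity -/
def pr : ℕ → Bool
  | 0 => false
  | n + 1 => !(pr n)

theorem CP.replicate {p : Piece} (h : CP [p] true) (n : ℕ) : CP (List.replicate n p) (pr n) := by
  induction n with
  | zero => exact CP.nil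
  | succ n ih =>
    have := CP.append h ih
    rw [Bool.xor_true] at this
    exact this

theorem isKnot_KW (i n : ℕ) : IsKnot (KW i n) := by
  refine ⟨closed_KW i n, ?_⟩
  have h := (CP.pos.replicate n).append ((CP.Th i).append (CP.neg.replicate n))
  show componentsAux (Mid i n ++ [death 0, death 0]) (lab false) 2 = 1
  rw [Mid, h.cp _ _ (by rfl)]
  have e : (xor (xor (xor (pr n) true) (pr n)) false) = true := by
    cases pr n <;> rfl
  rw [e]
  rfl

/-! ### the writhe -/

/-- directions of the four strands, the middle ones parallel -/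
def dd (b : Bool) : List Bool := [b, !b, !b, b]

/-- directions of the four strands, the middle ones not parallel -/
def de : Bool → Bool → List Bool
  | false, b => [b, !b, b, !b]
  | true, b => [b, b, !b, !b]

/-- the effect of a word on the directions -/
structure OR (w : Word) (s c : Bool) (t : ℤ) : Prop where
  fwd : ∀ v b t', Oriented (dd (xor s b)) v t' → Oriented (dd b) (w ++ v) (t' + t)
  bwd : ∀ v b t', Oriented (dd b) (w ++ v) t' → ∃ t'', Oriented (dd (xor s b)) v t'' ∧ t' = t'' + t
  alt : ∀ v e b t', Oriented (de e b) (w ++ v) t' → ∃ b' t'', Oriented (de (xor c e) b') v t''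

theorem OR.append {u v : Word} {s c s' c' : Bool} {t t' : ℤ} (hu : OR u s c t)
    (hv : OR v s' c' t') : OR (u ++ v) (xor s' s) (xor c' c) (t + t') where
  fwd w b r h := by
    rw [Bool.xor_assoc] at h
    have := hu.fwd _ _ _ (hv.fwd _ _ _ h)
    rw [List.append_assoc, show r + (t + t') = r + t' + t by ring]
    exact this
  bwd w b r h := by
    rw [List.append_assoc] at h
    obtain ⟨r', h1, rfl⟩ := hu.bwd _ _ _ h
    obtain ⟨r'', h2, rfl⟩ := hv.bwd _ _ _ h1
    exact ⟨r'', by rw [Bool.xor_assoc]; exact h2, by ring⟩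
  alt w e b r h := by
    rw [List.append_assoc] at h
    obtain ⟨b', r', h1⟩ := hu.alt _ _ _ _ h
    obtain ⟨b'', r'', h2⟩ := hv.alt _ _ _ _ h1
    exact ⟨b'', r'', by rw [Bool.xor_assoc]; exact h2⟩

theorem OR.nil : OR [] false false 0 where
  fwd v b t' h := by
    rw [Bool.false_xor] at h
    simpa using h
  bwd v b t' h := ⟨t', by rw [Bool.false_xor]; simpa using h, by ring⟩
  alt v e b t' h := ⟨b, t', by rw [Bool.false_xor]; simpa using h⟩

/-- a test for `OR` -/
theorem OR.of {w : Word} {s c : Bool} {t : ℤ} (bs : Bool → List Bool)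
    (h1 : ∀ b, wrP (dd b) w (bs b) = some (dd (xor s b), t))
    (h2 : ∀ b, ∀ p ∈ wrAllP (dd b) w, p = (dd (xor s b), t))
    (h3 : ∀ e b, ∀ p ∈ wrAllP (de e b) w, p.1 = de (xor c e) true ∨ p.1 = de (xor c e) false) :
    OR w s c t where
  fwd v b t' h := wrP_sound w _ _ _ _ (h1 b) v t' h
  bwd v b t' h := by
    obtain ⟨d', r, t'', h4, h5, rfl⟩ := wrAllP_complete w _ _ _ h
    have := h2 b _ h4
    simp only [Prod.mk.injEq] at this
    obtain ⟨rfl, rfl⟩ := this
    exact ⟨t'', h5, rfl⟩
  alt v e b t' h := by
    obtain ⟨d', r, t'', h4, h5, rfl⟩ := wrAllP_complete w _ _ _ h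
    rcases h3 e b _ h4 with h6 | h6
    · exact ⟨true, t'', by rw [← h6]; exact h5⟩
    · exact ⟨false, t'', by rw [← h6]; exact h5⟩

theorem OR.pos : OR [pos 1] false true 1 :=
  OR.of (fun _ => []) (by decide) (by decide) (by decide)

theorem OR.neg : OR [neg 1] false true (-1) :=
  OR.of (fun _ => []) (by decide) (by decide) (by decide)

theorem OR.om : OR Om true false (-8) :=
  OR.of (fun b => [b, b, !b]) (by decide +kernel) (by decide +kernel) (by decide +kernel)

theorem OR.replicate {p : Piece} {t : ℤ} (h : OR [p] false true t) (n : ℕ) :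
    OR (List.replicate n p) false (pr n) (n * t) := by
  induction n with
  | zero =>
    have := OR.nil
    rw [Nat.cast_zero, zero_mul]
    exact this
  | succ n ih =>
    have := OR.append h ih
    rw [Bool.xor_true, Bool.xor_false, show t + n * t = ((n + 1 : ℕ) : ℤ) * t by push_cast; ring]
      at this
    exact this

/-- the change of directions -/
def sA : ℕ → Bool
  | 0 => true
  | _ + 1 => false

/-- the writhe of the iterated tangles -/
def tw : ℕ → ℤ
  | 0 => -8
  | i + 1 => (tw i + (1 + tw i)) + (tw i + (1 + tw i))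

theorem OR.thAux {w : Word} {s : Bool} {t : ℤ} (h : OR w s false t) :
    OR (w ++ ([Piece.pos 1] ++ w)) false true (t + (1 + t)) := by
  have h1 := h.append (OR.pos.append h)
  have e : (xor (xor s false) s) = false := by cases s <;> rfl
  rw [e] at h1
  exact h1

theorem OR.AW (i : ℕ) : OR (AW i) (sA i) false (tw i) := by
  induction i with
  | zero => exact OR.om
  | succ i ih => exact (OR.thAux ih).append (OR.thAux ih)

/-- the writhe of the knots -/
def wr0 (i : ℕ) : ℤ := tw i + (1 + tw i)

theorem OR.Th (i : ℕ) : OR (Th i) false true (wr0 i) := OR.thAux (OR.AW i)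

theorem OR.Mid (i n : ℕ) : OR (Mid i n) false true (wr0 i) := by
  have h := (OR.pos.replicate n).append ((OR.Th i).append (OR.neg.replicate n))
  have e : (xor (xor (pr n) true) (pr n)) = true := by cases pr n <;> rfl
  rw [e, show (n : ℤ) * 1 + (wr0 i + n * -1) = wr0 i by ring] at h
  exact h

theorem hasWrithe_KW (i n : ℕ) : HasWrithe (KW i n) (wr0 i) := by
  have h0 : Oriented (dd true) [death 0, death 0] 0 :=
    Oriented.death [] [false, true] true [death 0] 0
      (Oriented.death [] [] false [] 0 Oriented.nil)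
  have h1 := (OR.Mid i n).fwd [death 0, death 0] true 0 (by rw [Bool.false_xor]; exact h0)
  rw [zero_add] at h1
  exact Oriented.birth [] [] false _ _ (Oriented.birth [] [false, true] true _ _ h1)

theorem writhe_unique_KW (i n : ℕ) (t : ℤ) (h : HasWrithe (KW i n) t) : t = wr0 i := by
  obtain ⟨d', s, t', h1, h2, rfl⟩ := wrAllP_complete [birth 0, birth 0] _ _ _ h
  have h3 : ∀ p ∈ wrAllP [] [birth 0, birth 0], p.2 = 0 ∧ ((∃ b, p.1 = dd b) ∨
      ∃ b, p.1 = de false b) := by decide
  obtain ⟨h4, h5⟩ := h3 _ h1
  simp only at h4 h5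
  rcases h5 with ⟨b, rfl⟩ | ⟨b, rfl⟩
  · obtain ⟨t'', h6, rfl⟩ := (OR.Mid i n).bwd _ _ _ h2
    have h7 := wrAll_complete _ _ _ h6
    have h8 : ∀ b : Bool, ∀ t ∈ wrAll (dd b) [death 0, death 0], t = 0 := by decide
    rw [h8 _ _ h7, h4]
    ring
  · obtain ⟨b', t'', h6⟩ := (OR.Mid i n).alt _ _ _ _ h2
    have h7 := wrAll_complete _ _ _ h6
    have h8 : ∀ b : Bool, ∀ t ∈ wrAll (de true b) [death 0, death 0], False := by decide
    exact absurd h7 (fun h => h8 _ _ h)

end Pool.Agent.Helper52_KP
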