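import Pool.Agent.Helper52_KP.Rep

set_option autoImplicit false
set_option linter.unusedSectionVars false

namespace Pool.Agent.Helper52_KP

open Pool.Agent.Helper454.Kauf LaurentPolynomial Piece Matrix

/-! ### closed diagrams -/

theorem width_rep (p : Piece) (hp : p.width 4 = some 4) (n : ℕ) (w : Word) :
    width (List.replicate n p ++ w) 4 = width w 4 := by
  induction n with
  | zero => rfl
  | succ n ih =>
    rw [List.replicate_succ, List.cons_append]
    show (p.width 4).bind (Helper454.Kauf.width _) = _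
    rw [hp]
    exact ih

theorem width_Om (w : Word) : width (Om ++ w) 4 = width w 4 := by
  have h : width Om 4 = some 4 := by decide +kernel
  rw [width_append, h]
  rfl

theorem width_AW (i : ℕ) : ∀ w : Word, width (AW i ++ w) 4 = width w 4 := by
  induction i with
  | zero => exact width_Om
  | succ i ih =>
    intro w
    have e : ∀ w : Word, width ([pos 1] ++ w) 4 = width w 4 := fun w => rfl
    show width (((AW i ++ ([pos 1] ++ AW i)) ++ (AW i ++ ([pos 1] ++ AW i))) ++ w) 4 = _
    simp only [List.append_assoc]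
    rw [ih, e, ih, ih, e, ih]

theorem width_Th (i : ℕ) (w : Word) : width (Th i ++ w) 4 = width w 4 := by
  have e : ∀ w : Word, width ([pos 1] ++ w) 4 = width w 4 := fun w => rfl
  simp only [Th, List.append_assoc]
  rw [width_AW, e, width_AW]

theorem width_Mid (i n : ℕ) (w : Word) : width (Mid i n ++ w) 4 = width w 4 := by
  simp only [Mid, List.append_assoc]
  rw [width_rep _ rfl, width_Th, width_rep _ rfl]

theorem closed_KW (i n : ℕ) : Closed (KW i n) := by
  show width (Mid i n ++ [death 0, death 0]) 4 = some 0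
  rw [width_Mid]
  rfl

noncomputable section

/-! ### values -/

theorem chkC0 : eqP (get1 (opD 1 0 vB0)) [(-2, [-1]), (-1, [0, 1]), (0, [-1]), (1, [0, 1])] =
    true := by decide +kernel
theorem chkC1 : eqP (get1 (opD 1 0 vB1)) [(-1, [-1, 0, 1]), (1, [-1, 0, 1])] = true := by
  decide +kernel
theorem chkCE : eqP (get1 (opD 1 0 vE)) [(0, [0, 1])] = true := by decide +kernel

section
variable {Λ : Word → Raz} (hΛ : KauffmanRules Λ) (h1 : Λ circle = 1)
include hΛ h1

theorem dd0 : zVar * be0 Λ [death 0, death 0] = c0 := by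
  have h := close2 hΛ vB0
  rw [eqP_sound chkC0, h1, smul_eq_mul, smul_eq_mul, mul_one] at h
  rw [be0, h, c0, al_pow]
  simp [evalP, evalZ, zVar, al, aPow]
  ring

theorem dd1 : zVar * be1 Λ [death 0, death 0] = c1 := by
  have h := close2 hΛ vB1
  rw [eqP_sound chkC1, h1, smul_eq_mul, smul_eq_mul, mul_one] at h
  rw [be1, h, c1]
  simp [evalP, evalZ, zVar, al, aPow]
  ring

theorem ddE : zVar * ep Λ [death 0, death 0] = zVar := by
  have h := close2 hΛ vE
  rw [eqP_sound chkCE, h1, smul_eq_mul, smul_eq_mul, mul_one] at h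
  rw [ep, h, evalP_z]

theorem value_mid {w : Word} {A : Matrix (Fin 2) (Fin 2) Raz} {e : Raz} (h : Rep w A e)
    (hc : Closed ([birth 0, birth 0] ++ (w ++ [death 0, death 0]))) :
    zVar * (al ^ 2 - zVar * al + 1) * Λ ([birth 0, birth 0] ++ (w ++ [death 0, death 0])) =
      zVar * al * e * zVar - Phi c0 c1 (al - zVar) A := by
  have e2 : ap ((al ^ 2 - zVar * al + 1) • st (st (extd Λ) (birth 0)) (birth 0)) w =
      (zVar * al) • ap (ep Λ) w -
        ap ((al - zVar) • be0 Λ + (1 : Raz) • be1 Λ) w := by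
    rw [t10 hΛ]
    have : ∀ f g : Word → Raz, ap (f - g) w = ap f w - ap g w := fun _ _ => rfl
    rw [this, ap_smul, one_smul, add_comm (be1 Λ)]
  rw [h.one Λ hΛ, h.blk Λ hΛ] at e2
  have e3 := congrFun e2 [death 0, death 0]
  have e4 : (ap ((al ^ 2 - zVar * al + 1) • st (st (extd Λ) (birth 0)) (birth 0)) w)
      [death 0, death 0] = (al ^ 2 - zVar * al + 1) *
        Λ ([birth 0, birth 0] ++ (w ++ [death 0, death 0])) := by
    show (al ^ 2 - zVar * al + 1) * extd Λ ([birth 0, birth 0] ++ (w ++ [death 0, death 0])) = _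
    rw [extd, if_pos hc]
  rw [e4] at e3
  rw [mul_assoc, e3]
  simp only [Pi.sub_apply, Pi.smul_apply, Pi.add_apply, smul_eq_mul]
  rw [Phi, ← dd0 hΛ h1, ← dd1 hΛ h1]
  linear_combination (zVar * al * e) * ddE hΛ h1

end

end

end Pool.Agent.Helper52_KP
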