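import Pool.Agent.Helper454.Kauf.Sound2

set_option autoImplicit false

namespace Pool.Agent.Helper52_KP

open Pool.Agent.Helper454.Kauf LaurentPolynomial

/-- integer multiple of a polynomial in `z` -/
def zmulc (x : ℤ) (p : ZP) : ZP := p.map (fun y => x * y)

/-- product of polynomials in `z` -/
def zmul : ZP → ZP → ZP
  | [], _ => []
  | x :: p, q => ZP.add (zmulc x q) (0 :: zmul p q)

/-- product with a term -/
def tmul (i : ℤ) (x : ZP) (q : Poly) : Poly := q.map (fun t => (i + t.1, zmul x t.2))

/-- product of Laurent polynomials -/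
def pmul : Poly → Poly → Poly
  | [], _ => []
  | (i, x) :: p, q => Poly.add (tmul i x q) (pmul p q)

/-- test for zero -/
def isZ (p : Poly) : Bool := p.all (fun t => t.2.all (fun x => x == 0))

/-- test for equality -/
def eqP (p q : Poly) : Bool := isZ (Poly.add p (Poly.neg q))

theorem evalZ_mulc (x : ℤ) (p : ZP) : evalZ (zmulc x p) = C x * evalZ p := by
  induction p with
  | nil => simp [zmulc, evalZ]
  | cons y p ih =>
    have : zmulc x (y :: p) = (x * y) :: zmulc x p := rfl
    rw [this, evalZ, ih, evalZ, map_mul]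
    ring

theorem evalZ_mul (p q : ZP) : evalZ (zmul p q) = evalZ p * evalZ q := by
  induction p with
  | nil => simp [zmul, evalZ]
  | cons x p ih =>
    rw [zmul, evalZ_add, evalZ_mulc, evalZ, evalZ, ih, map_zero]
    ring

theorem evalP_tmul (i : ℤ) (x : ZP) (q : Poly) :
    evalP (tmul i x q) = C (evalZ x) * T i * evalP q := by
  induction q with
  | nil => simp [tmul, evalP]
  | cons t q ih =>
    obtain ⟨j, y⟩ := t
    have : tmul i x ((j, y) :: q) = (i + j, zmul x y) :: tmul i x q := rfl
    rw [this, evalP, ih, evalP, evalZ_mul, map_mul, T_add]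
    ring

theorem evalP_mul (p q : Poly) : evalP (pmul p q) = evalP p * evalP q := by
  induction p with
  | nil => simp [pmul, evalP]
  | cons t p ih =>
    obtain ⟨i, x⟩ := t
    rw [pmul, evalP_add, evalP_tmul, ih, evalP]
    ring

theorem evalZ_zero (p : ZP) (h : p.all (fun x => x == 0) = true) : evalZ p = 0 := by
  induction p with
  | nil => rfl
  | cons x p ih =>
    simp only [List.all_cons, Bool.and_eq_true, beq_iff_eq] at h
    rw [evalZ, ih h.2, h.1, map_zero, mul_zero, add_zero]

theorem evalP_isZ (p : Poly) (h : isZ p = true) : evalP p = 0 := by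
  induction p with
  | nil => rfl
  | cons t p ih =>
    obtain ⟨i, x⟩ := t
    simp only [isZ, List.all_cons, Bool.and_eq_true] at h
    rw [evalP, ih h.2, evalZ_zero x h.1, map_zero, zero_mul, add_zero]

theorem eqP_sound {p q : Poly} (h : eqP p q = true) : evalP p = evalP q := by
  have := evalP_isZ _ h
  rw [evalP_add, evalP_neg] at this
  exact add_neg_eq_zero.mp this

/-- the monomial `c a^i z^j` -/
def mono (c : ℤ) (i : ℤ) (j : ℕ) : Poly := [(i, List.replicate j 0 ++ [c])]

end Pool.Agent.Helper52_KP
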