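import Pool.Agent.Helper52_KP.Value

set_option autoImplicit false
set_option linter.unusedSectionVars false

namespace Pool.Agent.Helper52_KP

open Pool.Agent.Helper454.Kauf LaurentPolynomial Piece Matrix

noncomputable section

theorem ap_append {M : Type} [AddCommGroup M] [Module Raz M] (f : Word → M) (u v : Word) :
    ap f (u ++ v) = ap (ap f u) v := by
  funext y
  show f ((u ++ v) ++ y) = f (u ++ (v ++ y))
  rw [List.append_assoc]

/-- the effect of a word on the states -/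
structure Rep (w : Word) (A : Matrix (Fin 2) (Fin 2) Raz) (e : Raz) : Prop where
  blk : ∀ Λ : Word → Raz, KauffmanRules Λ → ∀ x y : Raz, ap (x • be0 Λ + y • be1 Λ) w =
    (A 0 0 * x + A 0 1 * y) • be0 Λ + (A 1 0 * x + A 1 1 * y) • be1 Λ
  one : ∀ Λ : Word → Raz, KauffmanRules Λ → ap (ep Λ) w = e • ep Λ

theorem ap_add {M : Type} [AddCommGroup M] [Module Raz M] (f g : Word → M) (w : Word) :
    ap (f + g) w = ap f w + ap g w := rfl
theorem ap_smul {M : Type} [AddCommGroup M] [Module Raz M] (c : Raz) (f : Word → M) (w : Word) :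
    ap (c • f) w = c • ap f w := rfl

theorem Rep.nil : Rep [] 1 1 where
  blk Λ _ x y := by
    rw [ap_nil]
    simp
  one Λ _ := by rw [ap_nil, one_smul]

theorem Rep.append {u v : Word} {A B : Matrix (Fin 2) (Fin 2) Raz} {e f : Raz}
    (hu : Rep u A e) (hv : Rep v B f) : Rep (u ++ v) (B * A) (f * e) where
  blk Λ hΛ x y := by
    have e1 : B 0 0 * (A 0 0 * x + A 0 1 * y) + B 0 1 * (A 1 0 * x + A 1 1 * y) =
        (B * A) 0 0 * x + (B * A) 0 1 * y := by
      simp only [Matrix.mul_apply, Fin.sum_univ_two]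
      ring
    have e2 : B 1 0 * (A 0 0 * x + A 0 1 * y) + B 1 1 * (A 1 0 * x + A 1 1 * y) =
        (B * A) 1 0 * x + (B * A) 1 1 * y := by
      simp only [Matrix.mul_apply, Fin.sum_univ_two]
      ring
    rw [ap_append, hu.blk Λ hΛ, hv.blk Λ hΛ, e1, e2]
  one Λ hΛ := by
    rw [ap_append, hu.one Λ hΛ, ap_smul, hv.one Λ hΛ, smul_smul, mul_comm]

theorem Rep.pos : Rep [pos 1] (TT zVar) al where
  blk Λ hΛ x y := by
    show st (x • be0 Λ + y • be1 Λ) (Piece.pos 1) = _
    rw [st_add, st_smul, st_smul, t1 hΛ, t2 hΛ]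
    simp only [TT, Matrix.of_apply, Matrix.cons_val', Matrix.cons_val_zero, Matrix.cons_val_one,
      Matrix.cons_val_fin_one]
    module
  one Λ hΛ := t3 hΛ

theorem Rep.neg : Rep [neg 1] (TI zVar) (aPow 1) where
  blk Λ hΛ x y := by
    show st (x • be0 Λ + y • be1 Λ) (Piece.neg 1) = _
    rw [st_add, st_smul, st_smul, t4 hΛ, t5 hΛ]
    simp only [TI, Matrix.of_apply, Matrix.cons_val', Matrix.cons_val_zero, Matrix.cons_val_one,
      Matrix.cons_val_fin_one]
    module
  one Λ hΛ := t6 hΛ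

theorem Rep.om : Rep Om (SA zVar g0 g1 x0) 1 where
  blk Λ hΛ x y := by
    rw [← OM_eq, ap_add, ap_smul, ap_smul, t7 hΛ, t8 hΛ]
    simp only [Matrix.of_apply, Matrix.cons_val', Matrix.cons_val_zero, Matrix.cons_val_one,
      Matrix.cons_val_fin_one]
    module
  one Λ hΛ := by rw [t9 hΛ, one_smul]

theorem Rep.replicate {p : Piece} {A : Matrix (Fin 2) (Fin 2) Raz} {e : Raz} (h : Rep [p] A e)
    (n : ℕ) : Rep (List.replicate n p) (A ^ n) (e ^ n) := by
  induction n with
  | zero => rw [pow_zero, pow_zero]; exact Rep.nil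
  | succ n ih =>
    rw [List.replicate_succ, pow_succ, pow_succ]
    exact Rep.append h ih

/-- the coordinates of the iterated tangles -/
def sq (i : ℕ) : Raz × Raz × Raz := seqA zVar g0 g1 x0 i

theorem Rep.AW (i : ℕ) : ∃ e, Rep (AW i) (SA zVar g0 g1 (sq i)) e := by
  induction i with
  | zero => exact ⟨1, Rep.om⟩
  | succ i ih =>
    obtain ⟨e, h⟩ := ih
    have h1 := h.append (Rep.pos.append h)
    rw [SA_s1] at h1
    have h2 := h1.append h1
    rw [SA_s2] at h2
    exact ⟨_, h2⟩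

theorem Rep.Th (i : ℕ) : ∃ e, Rep (Th i) (SA zVar g0 g1 (s1 zVar g0 g1 (sq i))) e := by
  obtain ⟨e, h⟩ := Rep.AW i
  have h1 := h.append (Rep.pos.append h)
  rw [SA_s1] at h1
  exact ⟨_, h1⟩

theorem Rep.Mid (i : ℕ) : ∃ e, ∀ n, Rep (Mid i n)
    (TI zVar ^ n * SA zVar g0 g1 (s1 zVar g0 g1 (sq i)) * TT zVar ^ n) e := by
  obtain ⟨e, h⟩ := Rep.Th i
  refine ⟨e, fun n => ?_⟩
  have h1 := (Rep.pos.replicate n).append (h.append (Rep.neg.replicate n))
  have e1 : aPow 1 ^ n * e * al ^ n = e := by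
    have : aPow 1 ^ n * al ^ n = 1 := by rw [← mul_pow, a_al, one_pow]
    linear_combination e * this
  rwa [e1] at h1

end

end Pool.Agent.Helper52_KP
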