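import Pool.Agent.Helper52_KP.Poly
import Pool.Agent.Y478.KU.Parts

set_option autoImplicit false
set_option linter.unusedSectionVars false

namespace Pool.Agent.Helper52_KP

open Pool.Agent.Helper454.Kauf LaurentPolynomial Piece

/-- a tangle with four strands above and four strands below -/
def Om : Word :=
  [birth 3, pos 2, birth 4, pos 3, neg 4, neg 4, neg 5, death 6, birth 3, neg 2, pos 1, death 2,
    pos 1, neg 0, pos 2, neg 1, death 2, pos 1, pos 0, pos 1]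

/-- the effect of `Om` on states, times `z^3` -/
def OmV (v : Vec 2) : Vec 2 :=
  runZ 2 [(true, 1), (true, 0), (true, 1)] (opD 2 2 (runZ 3 [(true, 1), (false, 0), (true, 2),
    (false, 1)] (opD 3 2 (runZ 4 [(false, 2), (true, 1)] (opG 3 3 0 (opD 3 6 (runZ 4 [(true, 3),
    (false, 4), (false, 4), (false, 5)] (opG 3 4 0 (runZ 3 [(true, 2)] (opG 2 3 0 v))))))))))

/-- an entry of the matrix of `Om` -/
def pX0 : Poly :=
  [(-4, [2, 0, -8, 0, 11, 0, -6, 0, 1]), (-3, [0, 1, 0, -5, 0, 9, 0, -6, 0, 1]), (-2, [2, 0, -12, 0, 18, 0, -9, 0, 1]), (-1, [0, -2, 0, 2, 0, 3, 0, -1]), (0, [1, 0, -9, 0, 17, 0, -6, 0, 1]), (1, [0, -3, 0, 11, 0, -5, 0, 1]), (2, [0, 0, 1, 0, 1, 0, -1]), (3, [0, 0, 0, 1, 0, -1])]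

/-- an entry of the matrix of `Om` -/
def pY0 : Poly :=
  [(-4, [0, 3, 0, -7, 0, 5, 0, -1]), (-3, [1, 0, -1, 0, -4, 0, 5, 0, -1]), (-2, [0, 4, 0, -12, 0, 9, 0, -1]), (-1, [2, 0, -7, 0, 4]), (0, [0, 1, 0, -4, 0, 2, 0, -1]), (1, [1, 0, -7, 0, 10, 0, -7, 0, 1]), (2, [0, -2, 0, 9, 0, -9, 0, 2]), (3, [0, 0, 2, 0, -3, 0, 1])]

/-- an entry of the matrix of `Om` -/
def pX1 : Poly :=
  [(-4, [0, -3, 0, 7, 0, -5, 0, 1]), (-3, [1, 0, -2, 0, 5, 0, -5, 0, 1]), (-2, [0, 0, 0, 2, 0, -3]), (-1, [2, 0, -7, 0, 6, 0, -2]), (0, [0, -1, 0, -6, 0, 13, 0, -6, 0, 1]), (1, [1, 0, -8, 0, 15, 0, -6, 0, 1]), (2, [0, -2, 0, 3, 0, 2, 0, -1]), (3, [0, 0, 0, 0, 2, 0, -1])]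

/-- an entry of the matrix of `Om` -/
def pY1 : Poly :=
  [(-4, [1, 0, -4, 0, 4, 0, -1]), (-3, [0, 0, 0, -2, 0, 4, 0, -1]), (-2, [1, 0, -4, 0, 5]), (-1, [0, 3, 0, -8, 0, 8, 0, -1]), (0, [2, 0, -6, 0, 4, 0, 2, 0, -1]), (1, [0, 2, 0, -11, 0, 16, 0, -8, 0, 1]), (2, [1, 0, -8, 0, 16, 0, -11, 0, 2]), (3, [0, -1, 0, 4, 0, -4, 0, 1])]

/-- an entry of the matrix of `Om` -/
def pL : Poly :=
  [(-1, [1, 0, -1]), (0, [0, 3, 0, -5, 0, 1]), (1, [2, 0, -3, 0, -3, 0, 1]), (2, [0, 2, 0, -8, 0, 2]), (3, [1, 0, -5, 0, 1]), (4, [0, -1])]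

/-- an entry of the matrix of `Om` -/
def pTau : Poly :=
  [(-4, [-5, 0, 10, 0, -6, 0, 1]), (-3, [0, -1, 0, 7, 0, -6, 0, 1]), (-2, [-3, 0, 10, 0, -7, 0, 1]), (-1, [0, 3, 0, -6, 0, 6, 0, -1]), (0, [0, 0, -8, 0, 15, 0, -3]), (1, [0, 1, 0, -6, 0, 17, 0, -8, 0, 1]), (2, [1, 0, -14, 0, 27, 0, -14, 0, 2]), (3, [0, -3, 0, 9, 0, -6, 0, 1])]


noncomputable section

section
variable {M : Type} [AddCommGroup M] [Module Raz M]

/-- the states with four strands -/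
def Bs (Λ : Word → M) (e : ℕ) : Word → M := G 0 e (st (extd Λ) (birth 0))

/-- coordinates of a vector -/
def get1 (w : Vec 1) : Poly := List.getD (α := Poly) w 0 []

/-- coordinates of a vector -/
def getP (v : Vec 2) (e : ℕ) : Poly := get1 (List.getD (α := Vec 1) v e ([] : List Poly))

variable {Λ : Word → M} (hΛ : KauffmanRules Λ)
include hΛ

theorem sem_OmV (v : Vec 2) :
    sem Λ 2 (OmV v) = zVar • zVar • zVar • ap (sem Λ 2 v) Om := by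
  rw [OmV, sem_runZ hΛ 2 _ _ (by decide), sem_opD hΛ 1 2 _ (by omega),
    sem_runZ hΛ 3 _ _ (by decide), sem_opD hΛ 2 2 _ (by omega), sem_runZ hΛ 4 _ _ (by decide),
    sem_opG hΛ 3 3 0 _ (by omega), sem_opD hΛ 2 6 _ (by omega), sem_runZ hΛ 4 _ _ (by decide),
    sem_opG hΛ 3 4 0 _ (by omega), sem_runZ hΛ 3 _ _ (by decide), sem_opG hΛ 2 3 0 _ (by omega)]
  rfl

theorem sem_one' (w : Vec 1) : sem Λ 1 w = evalP (get1 w) • st (extd Λ) (birth 0) := by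
  cases w with
  | nil =>
    show (0 : Word → M) = evalP [] • _
    rw [evalP, zero_smul]
  | cons p ps => exact sem_one hΛ p ps

theorem foldS_big {m : ℕ} (t : ℕ → Vec m → (Word → M)) (e : ℕ) (h : 2 * m < e)
    (v : List (Vec m)) : foldS t e v = 0 := by
  induction v generalizing e with
  | nil => rfl
  | cons a v ih => rw [foldS, if_neg (by omega), ih _ (by omega), add_zero]

theorem foldS_cons' {m : ℕ} (t : ℕ → Vec m → (Word → M)) (h0 : ∀ e, t e (zero m) = 0) (e : ℕ)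
    (h : e ≤ 2 * m) (v : List (Vec m)) :
    foldS t e v = t e (v.getD 0 (zero m)) + foldS t (e + 1) v.tail := by
  cases v with
  | nil =>
    show (0 : Word → M) = t e (zero m) + 0
    rw [h0, add_zero]
  | cons a v => rw [foldS, if_pos h]; rfl

theorem sem_two (v : Vec 2) :
    sem Λ 2 v = evalP (getP v 0) • Bs Λ 0 + (evalP (getP v 1) • Bs Λ 1 +
      evalP (getP v 2) • Bs Λ 2) := by
  have h0 : ∀ e, (fun e w => G 0 e (sem Λ 1 w)) e (zero 1) = 0 := fun e => by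
    show G 0 e (sem Λ 1 (zero 1)) = 0
    rw [sem_zero, G_zero']
  show foldS (fun e w => G 0 e (sem Λ 1 w)) 0 v = _
  rw [foldS_cons' hΛ _ h0 0 (by omega), foldS_cons' hΛ _ h0 1 (by omega),
    foldS_cons' hΛ _ h0 2 (by omega), foldS_big hΛ _ 3 (by omega), add_zero]
  rw [sem_one' hΛ, sem_one' hΛ, sem_one' hΛ, G_smul, G_smul, G_smul]
  have e1 : (List.tail v).getD 0 (zero 1) = List.getD v 1 (zero 1) := by
    cases v <;> rfl
  have e2 : (List.tail (List.tail v)).getD 0 (zero 1) = List.getD v 2 (zero 1) := by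
    rcases v with _ | ⟨a, _ | ⟨b, c⟩⟩ <;> rfl
  rw [e1, e2]
  rfl

end

end

end Pool.Agent.Helper52_KP
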