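import Pool.Agent.Helper52_KP.Knot

set_option autoImplicit false
set_option linter.unusedSectionVars false

namespace Pool.Agent.Helper52_KP

open Pool.Agent.Helper454.Kauf LaurentPolynomial

/-! ### divisibility in a general ring -/

section
variable {R : Type} [CommRing R]

theorem dvd_seq (z g0 g1 : R) (x : R × R × R) (h : z ∣ trT z g0 g1 x) (i : ℕ) :
    z ∣ trT z g0 g1 (seqA z g0 g1 x i) := by
  induction i with
  | zero => exact h
  | succ i ih => exact (dvd_step _ _ _ _ ih).2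

theorem dvd_last (z g0 g1 : R) (x : R × R × R) (h : z ∣ trT z g0 g1 x) (i : ℕ) :
    z ^ (2 * i + 1) * x.2.2 ∣ (s1 z g0 g1 (seqA z g0 g1 x i)).2.2 := by
  induction i with
  | zero =>
    obtain ⟨c, hc⟩ := h
    refine ⟨c, ?_⟩
    show trT z g0 g1 x * x.2.2 = _
    rw [hc]
    ring
  | succ i ih =>
    obtain ⟨c1, h1⟩ := ih
    obtain ⟨c2, h2⟩ := (dvd_step _ _ _ _ (dvd_seq z g0 g1 x h i)).1
    obtain ⟨c3, h3⟩ := dvd_seq z g0 g1 x h (i + 1)
    refine ⟨c1 * c2 * c3, ?_⟩
    show trT z g0 g1 (seqA z g0 g1 x (i + 1)) * (trA z g0 (s1 z g0 g1 (seqA z g0 g1 x i)) *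
      (s1 z g0 g1 (seqA z g0 g1 x i)).2.2) = _
    rw [h1, h2, h3]
    ring

theorem U_add (z : R) (n m : ℕ) : U z (n + (m + 1)) = U z (n + 1) * U z (m + 1) - U z n * U z m ∧
    U z (n + (m + 2)) = U z (n + 1) * U z (m + 2) - U z n * U z (m + 1) := by
  induction m with
  | zero =>
    have e1 : U z (n + 2) = z * U z (n + 1) - U z n := rfl
    have e2 : U z 1 = 1 := rfl
    have e3 : U z 0 = 0 := rfl
    have e4 : U z 2 = z * U z 1 - U z 0 := rfl
    simp only [zero_add, e1, e2, e3, e4]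
    constructor <;> ring
  | succ m ih =>
    obtain ⟨h1, h2⟩ := ih
    refine ⟨h2, ?_⟩
    have e1 : U z (n + (m + 1 + 2)) = z * U z (n + (m + 2)) - U z (n + (m + 1)) := rfl
    have e2 : U z (m + 1 + 2) = z * U z (m + 2) - U z (m + 1) := rfl
    rw [e1, e2, h1, h2]
    have e3 : U z (m + 1 + 1) = z * U z (m + 1) - U z m := rfl
    rw [e3]
    ring

theorem U_dvd (z : R) (m j : ℕ) : U z m ∣ U z (m * j) := by
  induction j with
  | zero => exact ⟨0, by rw [mul_zero, mul_zero]; rfl⟩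
  | succ j ih =>
    cases m with
    | zero => simp
    | succ m =>
      obtain ⟨c, hc⟩ := ih
      have h := (U_add z ((m + 1) * j) m).1
      rw [show (m + 1) * (j + 1) = (m + 1) * j + (m + 1) by ring, h, hc]
      exact ⟨U z ((m + 1) * j + 1) - c * U z m, by ring⟩

variable {S : Type} [CommRing S] (f : R →+* S)

/-- the image of a triple -/
def mpT (x : R × R × R) : S × S × S := (f x.1, f x.2.1, f x.2.2)

theorem mpT_s1 (z g0 g1 : R) (x : R × R × R) :
    mpT f (s1 z g0 g1 x) = s1 (f z) (f g0) (f g1) (mpT f x) := by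
  simp only [mpT, s1, trT, dtA, map_add, map_sub, map_mul, map_pow, map_ofNat]

theorem mpT_s2 (z g0 g1 : R) (x : R × R × R) :
    mpT f (s2 z g0 g1 x) = s2 (f z) (f g0) (f g1) (mpT f x) := by
  simp only [mpT, s2, trA, dtA, map_add, map_sub, map_mul, map_pow, map_ofNat]

theorem mpT_seq (z g0 g1 : R) (x : R × R × R) (i : ℕ) :
    mpT f (seqA z g0 g1 x i) = seqA (f z) (f g0) (f g1) (mpT f x) i := by
  induction i with
  | zero => rfl
  | succ i ih => rw [seqA, mpT_s2, mpT_s1, ih]; rfl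

theorem map_U (z : R) (n : ℕ) : f (U z n) = U (f z) n := by
  induction n using Nat.strong_induction_on with
  | _ n ih =>
    match n with
    | 0 => exact map_zero f
    | 1 => exact map_one f
    | n + 2 =>
      show f (z * U z (n + 1) - U z n) = f z * U (f z) (n + 1) - U (f z) n
      rw [map_sub, map_mul, ih (n + 1) (by omega), ih n (by omega)]

end

/-! ### the subring `ℤ[a^{±1}, z]` -/

noncomputable section

/-- The subring `ℤ[a^{±1}, z]` of `ℤ[a^{±1}, z^{±1}]`, generated by `z`, `a` and `a⁻¹`. -/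
def noNegZ : Subring Raz := Subring.closure {zVar, aPow 1, aPow (-1)}

theorem z_mem : zVar ∈ noNegZ := Subring.subset_closure (by simp)
theorem a_mem : aPow 1 ∈ noNegZ := Subring.subset_closure (by simp)
theorem al_mem : al ∈ noNegZ := Subring.subset_closure (by simp [al])

theorem aPow_mem (n : ℤ) : aPow n ∈ noNegZ := by
  rcases Int.le_total 0 n with h | h
  · obtain ⟨m, rfl⟩ := Int.eq_ofNat_of_zero_le h
    have e : aPow ((m : ℕ) : ℤ) = aPow 1 ^ m := by
      rw [aPow, aPow, T_pow, mul_one]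
    rw [e]
    exact pow_mem a_mem m
  · obtain ⟨m, hm⟩ := Int.eq_ofNat_of_zero_le (show 0 ≤ -n by omega)
    obtain rfl : n = -(m : ℤ) := by omega
    rw [← al_pow]
    exact pow_mem al_mem m

theorem evalZ_mem (p : ZP) : C (evalZ p) ∈ noNegZ := by
  induction p with
  | nil => rw [evalZ, map_zero]; exact zero_mem _
  | cons c p ih =>
    have e : (C (T 1) : Raz) = zVar := rfl
    have e2 : (C (C c) : Raz) = (c : Raz) := by
      rw [show (C c : LaurentPolynomial ℤ) = (c : LaurentPolynomial ℤ) from eq_intCast C c,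
        map_intCast]
    rw [evalZ, map_add, map_mul, e, e2]
    exact add_mem (intCast_mem _ c) (mul_mem z_mem ih)

theorem evalP_mem (p : Poly) : evalP p ∈ noNegZ := by
  induction p with
  | nil => exact zero_mem _
  | cons t p ih =>
    obtain ⟨i, x⟩ := t
    exact add_mem (mul_mem (evalZ_mem x) (aPow_mem i)) ih

/-- `z` -/
def zS : noNegZ := ⟨zVar, z_mem⟩
/-- `a⁻¹` -/
def alS : noNegZ := ⟨al, al_mem⟩
/-- a constant -/
def g0S : noNegZ := ⟨g0, by rw [← pG0_eq]; exact evalP_mem _⟩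
/-- a constant -/
def g1S : noNegZ := ⟨g1, by rw [← pG1_eq]; exact evalP_mem _⟩
/-- a constant -/
def x0S : noNegZ × noNegZ × noNegZ := (⟨X0, evalP_mem _⟩, ⟨Y0, evalP_mem _⟩, ⟨Lm, evalP_mem _⟩)

/-- the coefficient of the difference -/
def lS (i : ℕ) : noNegZ := (s1 zS g0S g1S (seqA zS g0S g1S x0S i)).2.2

theorem lS_coe (i : ℕ) : (lS i : Raz) = lF i := by
  have h := mpT_s1 noNegZ.subtype zS g0S g1S (seqA zS g0S g1S x0S i)
  rw [mpT_seq] at h
  exact congrArg (fun x => x.2.2) h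

theorem trT_S : zS ∣ trT zS g0S g1S x0S :=
  ⟨⟨evalP pTau, evalP_mem _⟩, Subtype.ext trT_x0⟩

theorem lS_dvd (i : ℕ) : ∃ c ∈ noNegZ, lF i = zVar ^ (2 * i + 1) * Lm * c := by
  obtain ⟨c, hc⟩ := dvd_last zS g0S g1S x0S trT_S i
  refine ⟨c, c.2, ?_⟩
  have := congrArg (fun x : noNegZ => (x : Raz)) hc
  rw [← lS_coe]
  exact this

theorem U_S (m j : ℕ) : ∃ c ∈ noNegZ, U zVar (m * j) = U zVar m * c := by
  obtain ⟨c, hc⟩ := U_dvd zS m j
  refine ⟨c, c.2, ?_⟩
  have := congrArg noNegZ.subtype hc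
  rw [map_mul, map_U, map_U] at this
  exact this

end

end Pool.Agent.Helper52_KP
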