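import Pool.Agent.Helper52_KP.Alg

set_option autoImplicit false
set_option linter.unusedSectionVars false

namespace Pool.Agent.Helper52_KP

open Pool.Agent.Helper454.Kauf LaurentPolynomial Piece Matrix

/-! ### the words -/

/-- the iterated tangles -/
def AW : ℕ → Word
  | 0 => Om
  | i + 1 => (AW i ++ ([pos 1] ++ AW i)) ++ (AW i ++ ([pos 1] ++ AW i))

/-- the middle part of the knots -/
def Th (i : ℕ) : Word := AW i ++ ([pos 1] ++ AW i)

/-- the part of the knots between the maxima and the minima -/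
def Mid (i n : ℕ) : Word := List.replicate n (pos 1) ++ (Th i ++ List.replicate n (neg 1))

/-- the knots -/
def KW (i n : ℕ) : Word := [birth 0, birth 0] ++ (Mid i n ++ [death 0, death 0])

noncomputable section

/-- the constants -/
def g0 : Raz := al ^ 3 - zVar * al ^ 2 - al + zVar ^ 2 * al
/-- the constants -/
def g1 : Raz := 2 * al ^ 2 - zVar ^ 2 * al ^ 2 - 2 * zVar * al + zVar ^ 3 * al
/-- the constants -/
def c0 : Raz := -al ^ 2 + zVar * al - 1 + zVar * aPow 1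
/-- the constants -/
def c1 : Raz := -al + zVar ^ 2 * al - aPow 1 + zVar ^ 2 * aPow 1
/-- the constants -/
def Lm : Raz := evalP pL

def pG0 : Poly := [(-3, [1]), (-2, [0, -1]), (-1, [-1, 0, 1])]
def pG1 : Poly := [(-2, [2, 0, -1]), (-1, [0, -2, 0, 1])]

theorem aPow_mul (i j : ℤ) : aPow i * aPow j = aPow (i + j) := by
  rw [aPow, aPow, aPow, T_add]

theorem a_al : aPow 1 * al = 1 := by
  rw [al, aPow_mul]; simp [aPow]

theorem al_pow (n : ℕ) : al ^ n = aPow (-n) := by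
  rw [al, aPow, T_pow, aPow]; simp

theorem pG0_eq : evalP pG0 = g0 := by
  rw [g0, al_pow, al_pow]
  simp [pG0, evalP, evalZ, zVar, al, aPow]
  ring

theorem pG1_eq : evalP pG1 = g1 := by
  have e2 : (C (C 2) : Raz) = 2 := by rw [map_ofNat, map_ofNat]
  rw [g1, al_pow]
  simp [pG1, evalP, evalZ, zVar, al, aPow]
  rw [← map_ofNat (C : LaurentPolynomial ℤ →+* Raz) 2]
  ring

theorem chkX1 : eqP pX1 (Poly.add (Poly.neg pY0) (pmul pL pG1)) = true := by decide +kernel
theorem chkY1 : eqP pY1 (Poly.add pX0 (Poly.add (pmul [(0, [0, 1])] pY0)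
  (Poly.neg (pmul pL pG0)))) = true := by decide +kernel
theorem chkTau : eqP (pmul [(0, [0, 1])] pTau) (Poly.add (pmul [(0, [0, 1])] pX0)
  (Poly.add (pmul [(0, [-2, 0, 1])] pY0)
  (pmul pL (Poly.add pG1 (Poly.neg (pmul [(0, [0, 1])] pG0)))))) = true := by decide +kernel
theorem chkL : eqP pL (pmul (pmul [(0, [1]), (1, [0, 1]), (2, [1])]
  [(0, [1]), (1, [0, 3, 0, -1]), (2, [1])]) [(-1, [1, 0, -1]), (0, [0, -1])]) = true := by
  decide +kernel

/-- the coordinates of `Om` -/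
def x0 : Raz × Raz × Raz := (X0, Y0, Lm)

theorem OM_eq : !![X0, X1; Y0, Y1] = SA zVar g0 g1 x0 := by
  have h1 := eqP_sound chkX1
  have h2 := eqP_sound chkY1
  rw [evalP_add, evalP_neg, evalP_mul, pG1_eq] at h1
  rw [evalP_add, evalP_add, evalP_neg, evalP_mul, evalP_mul, pG0_eq, evalP_z] at h2
  have h1' : X1 = -Y0 + Lm * g1 := h1
  have h2' : Y1 = X0 + (zVar * Y0 + -(Lm * g0)) := h2
  rw [SA, x0, h1', h2']
  ext i j
  fin_cases i <;> fin_cases j <;> simp
  ring

theorem trT_x0 : trT zVar g0 g1 x0 = zVar * evalP pTau := by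
  have h := eqP_sound chkTau
  rw [evalP_mul, evalP_add, evalP_mul, evalP_add, evalP_mul, evalP_mul, evalP_add, evalP_neg,
    evalP_mul, pG0_eq, pG1_eq, evalP_z] at h
  have e : evalP [(0, [-2, 0, 1])] = zVar ^ 2 - 2 := by
    have e2 : (C 2 : Raz) = 2 := map_ofNat _ 2
    simp [evalP, evalZ, zVar]
    rw [e2]
    ring
  rw [e] at h
  rw [h, trT, x0]
  show zVar * X0 + (zVar ^ 2 - 2) * Y0 + Lm * (g1 - zVar * g0) =
    zVar * X0 + ((zVar ^ 2 - 2) * Y0 + Lm * (g1 + -(zVar * g0)))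
  ring

theorem f1_eq : evalP [(0, [1]), (1, [0, 1]), (2, [1])] = 1 + zVar * aPow 1 + aPow 2 := by
  simp [evalP, evalZ, zVar, aPow]
  ring

theorem f2_eq : evalP [(0, [1]), (1, [0, 3, 0, -1]), (2, [1])] =
    1 - (zVar ^ 3 - 3 * zVar) * aPow 1 + aPow 2 := by
  have e2 : (C 3 : Raz) = 3 := map_ofNat _ 3
  simp [evalP, evalZ, zVar, aPow]
  rw [e2]
  ring

theorem f3_eq : evalP [(-1, [1, 0, -1]), (0, [0, -1])] = (1 - zVar ^ 2) * al - zVar := by
  simp [evalP, evalZ, zVar, aPow, al]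
  ring

theorem Lm_eq : Lm = (1 + zVar * aPow 1 + aPow 2) * (1 - (zVar ^ 3 - 3 * zVar) * aPow 1 + aPow 2) *
    ((1 - zVar ^ 2) * al - zVar) := by
  have h := eqP_sound chkL
  rw [evalP_mul, evalP_mul, f1_eq, f2_eq, f3_eq] at h
  exact h

end

end Pool.Agent.Helper52_KP
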